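import Pool.Agent.N743.Alg

/-!
# `π + e` and `π - e`: the scales of the algebraic approximations

A number `u` is near at the scale `X` (with parameters `d` and `θ`) if some nonzero integer
polynomial of degree at most `d` with coefficients at most `X^θ` has at `u` a value at most `1 / X`.

Let `t` be any real number (for instance `π`) and let `u_i = α_i e + β_i t + γ_i` be finitely many
numbers, where `α_i`, `β_i` and `γ_i` are real algebraic numbers and no two of the vectors
`(α_i, β_i)` are proportional; for instance `u_1 = π + e` and `u_2 = π - e`.  Then for every degree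
`d` and every `m > 1` the following scale dichotomy is proved, for all small `θ > 0`.

* At every large scale at most one of the numbers is near.
* If one of the numbers is algebraic of degree at most `d`, it is near at all large scales and the
  others are near at no large scale.
* Otherwise every large scale `X` at which one of the numbers is near is followed by a scale `Z ≥ X`
  such that only this number is near between `X` and `Z` and none of the numbers is near between
  `Z` and `Z^m`; and there are arbitrarily large `Z` such that none of the numbers is near between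
  `Z` and `Z^m`.

The same holds with `π` or with the logarithm of a positive rational number `≠ 1` in the place of
`e`, and, more generally, for every finite family of real numbers such that `e` (or `π`, or this
logarithm) is algebraic over the ring generated by any two of them.

The proof combines theorems of the starting library: the joint measure for such pairs
(`Pool.Agent.R473.JC.jointR_of_alg`, which uses the transcendence measures of `e`, of `π` and of
logarithms) and the engine of the scale dichotomy for algebraic approximations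
(`Pool.Agent.N743.dichotomy_alg`).
-/

set_option autoImplicit false

namespace Pool.Agent.Results.MP_363d4d_nt.AlgebraicScales

open Finset Polynomial
open Pool.Agent.N743 (Dichotomy)
open Pool.Agent.R356 (JointR)

/-- `u` is algebraic of degree at most `d` -/
def AlgDeg (d : ℕ) (u : ℝ) : Prop := ∃ P : ℤ[X], P ≠ 0 ∧ P.natDegree ≤ d ∧ aeval u P = 0

/-- some nonzero integer polynomial of degree at most `d` with coefficients at most `X ^ θ` in
absolute value has at `u` a value at most `1 / X` in absolute value -/
def AlgNear (d : ℕ) (θ X u : ℝ) : Prop :=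
  ∃ P : ℤ[X], P ≠ 0 ∧ P.natDegree ≤ d ∧ (∀ k, |((P.coeff k : ℤ) : ℝ)| ≤ X ^ θ) ∧
    |aeval u P| ≤ X⁻¹

/-- For every `d` and every `m > 1` there is `θ₀ > 0` such that for all positive `θ ≤ θ₀` the scale
dichotomy holds for the numbers `x i` (good: algebraic of degree at most `d`; near at the scale `X`:
see `AlgNear`). -/
def Scales {ι : Type} (x : ι → ℝ) : Prop :=
  ∀ (d : ℕ) (m : ℝ), 1 < m → ∃ θ₀ : ℝ, 0 < θ₀ ∧ ∀ θ : ℝ, 0 < θ → θ ≤ θ₀ →
    Dichotomy (fun i => AlgDeg d (x i)) (fun X i => AlgNear d θ X (x i)) m

lemma scales_of_joint {ι : Type} [Finite ι] (x : ι → ℝ)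
    (h : ∀ i j, i ≠ j → JointR (x i) (x j)) : Scales x :=
  fun d m hm => Pool.Agent.N743.dichotomy_alg x h d m hm

/-- `x` is `e`, `π` or the logarithm of a positive rational number different from `1` -/
def Base (x : ℝ) : Prop :=
  x = Real.exp 1 ∨ x = Real.pi ∨ ∃ q : ℚ, 0 < q ∧ q ≠ 1 ∧ x = Real.log q

lemma scales_of_alg (x : ℝ) (hx : Base x) (n : ℕ) (u : Fin n → ℝ)
    (h : ∀ i j, i ≠ j → IsAlgebraic (Algebra.adjoin ℤ ({u i, u j} : Set ℝ)) x) : Scales u :=
  scales_of_joint u fun i j hij =>
    Pool.Agent.R473.JC.jointR_of_alg x (Pool.Agent.R473.JC.measT_three x hx) _ _ (h i j hij)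

/-- linear forms with algebraic coefficients -/
lemma alg_forms (x t a b c a' b' c' : ℝ) (ha : IsAlgebraic ℚ a) (hb : IsAlgebraic ℚ b)
    (hc : IsAlgebraic ℚ c) (ha' : IsAlgebraic ℚ a') (hb' : IsAlgebraic ℚ b')
    (hc' : IsAlgebraic ℚ c') (h : a * b' ≠ a' * b) :
    IsAlgebraic (Algebra.adjoin ℤ ({a * x + b * t + c, a' * x + b' * t + c'} : Set ℝ)) x := by
  have tr : ∀ y : ℝ, IsAlgebraic ℚ y → IsAlgebraic (Algebra.adjoin ℤ
      ({a * x + b * t + c, a' * x + b' * t + c'} : Set ℝ)) y := by
    intro y hy
    have h1 : IsAlgebraic ℤ y := (IsFractionRing.isAlgebraic_iff ℤ ℚ ℝ).2 hy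
    exact h1.extendScalars (RingHom.injective_int _)
  have hu : IsAlgebraic (Algebra.adjoin ℤ
      ({a * x + b * t + c, a' * x + b' * t + c'} : Set ℝ)) (a * x + b * t + c) :=
    isAlgebraic_algebraMap (⟨_, Pool.Agent.R473.JC.mem_u _ _⟩ : Algebra.adjoin ℤ
      ({a * x + b * t + c, a' * x + b' * t + c'} : Set ℝ))
  have hv : IsAlgebraic (Algebra.adjoin ℤ
      ({a * x + b * t + c, a' * x + b' * t + c'} : Set ℝ)) (a' * x + b' * t + c') :=
    isAlgebraic_algebraMap (⟨_, Pool.Agent.R473.JC.mem_v _ _⟩ : Algebra.adjoin ℤ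
      ({a * x + b * t + c, a' * x + b' * t + c'} : Set ℝ))
  have hd : a * b' - a' * b ≠ 0 := sub_ne_zero.2 h
  have e : x = (b' * ((a * x + b * t + c) - c) - b * ((a' * x + b' * t + c') - c')) *
      (a * b' - a' * b)⁻¹ := by
    rw [eq_mul_inv_iff_mul_eq₀ hd]
    ring
  have key : IsAlgebraic (Algebra.adjoin ℤ
      ({a * x + b * t + c, a' * x + b' * t + c'} : Set ℝ))
      ((b' * ((a * x + b * t + c) - c) - b * ((a' * x + b' * t + c') - c')) *
      (a * b' - a' * b)⁻¹) :=
    (((tr b' hb').mul (hu.sub (tr c hc))).sub ((tr b hb).mul (hv.sub (tr c' hc')))).mul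
      (((tr a ha).mul (tr b' hb')).sub ((tr a' ha').mul (tr b hb))).inv
  rwa [← e] at key

/-- **The scales of the algebraic approximations.**  Let `x` be `e`, `π` or the logarithm of a
positive rational number `≠ 1`.

(1) The scale dichotomy holds for every finite family of real numbers such that `x` is algebraic
over the ring generated by any two of them.

(2) It holds for all finite families of numbers `α_i x + β_i t + γ_i` with `t` real, and `α_i`,
`β_i`, `γ_i` algebraic and `α_i β_j ≠ α_j β_i` for `i ≠ j`.

(3) It holds for the two numbers `π + e` and `π - e`. -/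
theorem result :
    (∀ x : ℝ, Base x → ∀ (n : ℕ) (u : Fin n → ℝ),
      (∀ i j, i ≠ j → IsAlgebraic (Algebra.adjoin ℤ ({u i, u j} : Set ℝ)) x) → Scales u) ∧
    (∀ x : ℝ, Base x → ∀ (t : ℝ) (n : ℕ) (α β γ : Fin n → ℝ), (∀ i, IsAlgebraic ℚ (α i)) →
      (∀ i, IsAlgebraic ℚ (β i)) → (∀ i, IsAlgebraic ℚ (γ i)) →
      (∀ i j, i ≠ j → α i * β j ≠ α j * β i) → Scales fun i => α i * x + β i * t + γ i) ∧
    Scales ![Real.pi + Real.exp 1, Real.pi - Real.exp 1] := by
  have part2 : ∀ x : ℝ, Base x → ∀ (t : ℝ) (n : ℕ) (α β γ : Fin n → ℝ),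
      (∀ i, IsAlgebraic ℚ (α i)) → (∀ i, IsAlgebraic ℚ (β i)) → (∀ i, IsAlgebraic ℚ (γ i)) →
      (∀ i j, i ≠ j → α i * β j ≠ α j * β i) → Scales fun i => α i * x + β i * t + γ i := by
    intro x hx t n α β γ hα hβ hγ h
    exact scales_of_alg x hx n _ fun i j hij =>
      alg_forms x t _ _ _ _ _ _ (hα i) (hβ i) (hγ i) (hα j) (hβ j) (hγ j) (h i j hij)
  refine ⟨fun x hx n u h => scales_of_alg x hx n u h, part2, ?_⟩
  have h1 := part2 (Real.exp 1) (Or.inl rfl) Real.pi 2 ![1, -1] ![1, 1] ![0, 0]
    (by intro i; fin_cases i <;> simp [isAlgebraic_one, IsAlgebraic.neg])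
    (by intro i; fin_cases i <;> simp [isAlgebraic_one])
    (by intro i; fin_cases i <;> simp [isAlgebraic_zero])
    (by intro i j hij; fin_cases i <;> fin_cases j <;> simp_all <;> norm_num)
  have e : (fun i : Fin 2 => (![1, -1] : Fin 2 → ℝ) i * Real.exp 1 +
      (![1, 1] : Fin 2 → ℝ) i * Real.pi + (![0, 0] : Fin 2 → ℝ) i) =
      ![Real.pi + Real.exp 1, Real.pi - Real.exp 1] := by
    funext i
    fin_cases i
    · simp; ring
    · simp; ring
  rwa [e] at h1

end Pool.Agent.Results.MP_363d4d_nt.AlgebraicScales
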