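import Mathlib
import Pool.Agent.Q163.LE.Tr

set_option autoImplicit false

/-!
# `e`, `π` and `π + e`, `π - e` over fields of simultaneously Liouville numbers

Call a field `F` of real numbers simultaneously Liouville if for any finitely many elements
`x_1, …, x_m` of `F` and any `w` there are arbitrarily large `q` with `‖q x_i‖ < q ^ (-w)` for all
`i`. Besides `ℚ` such fields are, for instance,

* for a sequence `T_n → ∞` the field of all real numbers `x` which for one `A` and for all `E` have
  rational approximations of height at most `exp (A T_n)` with an error at most `exp (-E T_n)` for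
  all large `n`;
* for an infinite set `S` of integers the field generated by all real numbers `x` whose first `N`
  digits in some base have a partition into `o (log N)` phrases (`N ∈ S`), each of which is a digit
  or a copy of a block which begins earlier.

The classical fact that one of `π + e`, `π - e` is transcendental over `ℚ` is extended to all these
fields `F`, together with a law for all numbers which are algebraic over `ℚ(π, e)`.
-/

namespace Pool.Agent.Results.MP_363d4d_nt.OverLiouvilleFields

open Filter Topology Pool.Agent.Q163.LE Pool.Agent.TH456.TM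

/-- the field generated by all real numbers `x` such that, for some base `b`,
`phrases b x N / log N` tends to `0` as `N` tends to infinity in `S` -/
noncomputable def field (S : Set ℕ) : Subfield ℝ := Subfield.closure {x : ℝ | ∃ b : ℕ, 2 ≤ b ∧
  Tendsto (fun N : ℕ => (phrases b x N : ℝ) / Real.log N) (atTop ⊓ 𝓟 S) (𝓝 0)}

/-- numbers which are algebraic over a ring generated by numbers algebraic over `F` -/
theorem alg_of_gen {F : Subfield ℝ} {s : Set ℝ} (hs : ∀ x ∈ s, IsAlgebraic F x) {z : ℝ}
    (hz : IsAlgebraic (Algebra.adjoin ℚ s) z) : IsAlgebraic F z := by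
  let K : IntermediateField F ℝ := algebraicClosure F ℝ
  let K' : Subalgebra ℚ ℝ := K.toSubalgebra.restrictScalars ℚ
  have hle : Algebra.adjoin ℚ s ≤ K' := by
    rw [Algebra.adjoin_le_iff]
    intro x hx
    exact (mem_algebraicClosure_iff).2 (hs x hx)
  obtain ⟨P, hP0, hP⟩ := hz
  have hzK : IsAlgebraic K z := by
    refine ⟨P.map (Subalgebra.inclusion hle : _ →+* K'), ?_, ?_⟩
    · intro h0
      exact hP0 ((Polynomial.map_eq_zero_iff (Subalgebra.inclusion_injective hle)).1 h0)
    · have e1 : (Polynomial.aeval z) (P.map ((Subalgebra.inclusion hle : _ →+* K'))) =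
          (Polynomial.aeval z) P := by
        rw [Polynomial.aeval_def, Polynomial.eval₂_map, Polynomial.aeval_def]
        rfl
      exact e1.trans hP
  have : Algebra.IsAlgebraic F K := algebraicClosure.isAlgebraic F ℝ
  exact hzK.restrictScalars F

/-- the matroid of algebraic independence -/
theorem mem_closure_iff {s : Set ℝ} {z : ℝ} :
    z ∈ (AlgebraicIndependent.matroid ℚ ℝ).closure s ↔ IsAlgebraic (Algebra.adjoin ℚ s) z := by
  rw [AlgebraicIndependent.matroid_closure_eq]
  rfl

/-- the dimension count -/
theorem dependent {F : Subfield ℝ} {θ : ℝ} (hθ : Transcendental F θ) {n : ℕ} (x y : Fin n → ℝ)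
    (hx : IsAlgebraic (Algebra.adjoin ℚ (Set.range x)) θ)
    (hy : ∀ i, IsAlgebraic (Algebra.adjoin ℚ (Set.range x)) (y i))
    (hyF : ∀ i, IsAlgebraic F (y i)) : ¬ AlgebraicIndependent ℚ y := by
  intro hind
  set M := AlgebraicIndependent.matroid ℚ ℝ with hM
  have hI : M.Indep (Set.range y) := by
    rw [hM, AlgebraicIndependent.matroid_indep_iff]
    exact hind.coe_range
  have hsub : Set.range y ⊆ M.closure (Set.range x) := by
    rintro _ ⟨i, rfl⟩
    exact mem_closure_iff.2 (hy i)
  have hcard : (Set.range y).encard = n := by
    rw [← Set.image_univ, (hind.injective).encard_image, Set.encard_univ]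
    simp
  have hrk : M.eRk (M.closure (Set.range x)) ≤ M.eRk (Set.range y) := by
    rw [hI.eRk_eq_encard, hcard, Matroid.eRk_closure_eq]
    refine (M.eRk_le_encard _).trans ?_
    rw [← Set.image_univ]
    refine (Set.encard_image_le _ _).trans ?_
    rw [Set.encard_univ]
    simp
  have hfin : M.IsRkFinite (Set.range y) := M.isRkFinite_of_finite (Set.finite_range y)
  have hcl := hfin.closure_eq_closure_of_subset_of_eRk_ge_eRk hsub hrk
  rw [Matroid.closure_closure] at hcl
  have h1 : θ ∈ M.closure (Set.range y) := by
    rw [hcl]
    exact mem_closure_iff.2 hx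
  exact hθ (alg_of_gen (s := Set.range y) (by rintro _ ⟨i, rfl⟩; exact hyF i)
    (mem_closure_iff.1 h1))

/-- **`π + e` and `π - e` over simultaneously Liouville fields.** -/
theorem result :
    -- examples of such fields
    (∀ (T : ℕ → ℝ) (hT : Tendsto T atTop atTop), SimLiouville (ApField T hT)) ∧
    (∀ S : Set ℕ, S.Infinite → SimLiouville (field S)) ∧
    ∀ F : Subfield ℝ, SimLiouville F →
      -- (1) one of `π + e`, `π - e` is transcendental over `F`
      (Transcendental F (Real.pi + Real.exp 1) ∨ Transcendental F (Real.pi - Real.exp 1)) ∧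
      -- (2) linear combinations of `t` and `e`, for instance for `t = π`
      (∀ t x y x' y' : ℝ, IsAlgebraic F x → IsAlgebraic F y → IsAlgebraic F x' →
        IsAlgebraic F y' → x * y' ≠ x' * y →
        Transcendental F (x * t + y * Real.exp 1) ∨
          Transcendental F (x' * t + y' * Real.exp 1)) ∧
      -- (3) if `e` or `π` is algebraic over `ℚ(s)`, some number in `s` is transcendental over `F`
      (∀ s : Set ℝ, (IsAlgebraic (Algebra.adjoin ℚ s) (Real.exp 1) ∨
        IsAlgebraic (Algebra.adjoin ℚ s) Real.pi) → ∃ u ∈ s, Transcendental F u) ∧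
      -- (4) if `e` or `π` is algebraic over `ℚ(x_1, …, x_n)`, for instance if `x = (π, e)`, then any
      -- `n` numbers `y_i` that are algebraic over `ℚ(x_1, …, x_n)` and algebraic over `F` are
      -- algebraically dependent over `ℚ`
      (∀ (n : ℕ) (x y : Fin n → ℝ),
        (IsAlgebraic (Algebra.adjoin ℚ (Set.range x)) (Real.exp 1) ∨
          IsAlgebraic (Algebra.adjoin ℚ (Set.range x)) Real.pi) →
        (∀ i, IsAlgebraic (Algebra.adjoin ℚ (Set.range x)) (y i)) →
        (∀ i, IsAlgebraic F (y i)) → ¬ AlgebraicIndependent ℚ y) ∧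
      -- (5) so the transcendental numbers that are algebraic over `ℚ(e)` or over `ℚ(π)` are
      -- transcendental over `F`
      (∀ z : ℝ, Transcendental ℚ z → (IsAlgebraic (Algebra.adjoin ℚ {Real.exp 1}) z ∨
        IsAlgebraic (Algebra.adjoin ℚ {Real.pi}) z) → Transcendental F z) := by
  refine ⟨sim_apField, sim_lz, fun F hF => ?_⟩
  have hpi : Transcendental F Real.pi := transc_of_measT hF _ measT_pi
  have he : Transcendental F (Real.exp 1) := transc_of_measT hF _ measT_e
  have h2 : ∀ t x y x' y' : ℝ, IsAlgebraic F x → IsAlgebraic F y → IsAlgebraic F x' →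
        IsAlgebraic F y' → x * y' ≠ x' * y →
        Transcendental F (x * t + y * Real.exp 1) ∨
          Transcendental F (x' * t + y' * Real.exp 1) := by
    intro t x y x' y' hx hy hx' hy' hne
    by_contra hcon
    unfold Transcendental at hcon
    push Not at hcon
    obtain ⟨h1, h2⟩ := hcon
    have hd : x * y' - x' * y ≠ 0 := sub_ne_zero.2 hne
    have e : Real.exp 1 = (x * (x' * t + y' * Real.exp 1) - x' * (x * t + y * Real.exp 1)) *
        (x * y' - x' * y)⁻¹ := by
      rw [eq_mul_inv_iff_mul_eq₀ hd]
      ring
    apply he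
    rw [e]
    exact ((hx.mul h2).sub (hx'.mul h1)).mul ((hx.mul hy').sub (hx'.mul hy)).inv
  have h3 : ∀ (n : ℕ) (x y : Fin n → ℝ),
        (IsAlgebraic (Algebra.adjoin ℚ (Set.range x)) (Real.exp 1) ∨
          IsAlgebraic (Algebra.adjoin ℚ (Set.range x)) Real.pi) →
        (∀ i, IsAlgebraic (Algebra.adjoin ℚ (Set.range x)) (y i)) →
        (∀ i, IsAlgebraic F (y i)) → ¬ AlgebraicIndependent ℚ y := by
    intro n x y hx hy hyF
    rcases hx with hx | hx
    · exact dependent he x y hx hy hyF
    · exact dependent hpi x y hx hy hyF
  refine ⟨?_, h2, ?_, h3, ?_⟩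
  · have h := h2 Real.pi 1 1 1 (-1) isAlgebraic_one isAlgebraic_one isAlgebraic_one
      isAlgebraic_one.neg (by norm_num)
    rcases h with h | h
    · left
      simpa using h
    · right
      have e : Real.pi - Real.exp 1 = 1 * Real.pi + -1 * Real.exp 1 := by ring
      rw [e]
      exact h
  · intro s hs
    by_contra hcon
    unfold Transcendental at hcon
    push Not at hcon
    rcases hs with hs | hs
    · exact he (alg_of_gen hcon hs)
    · exact hpi (alg_of_gen hcon hs)
  · intro z hz hor hzF
    have key : ∀ w : ℝ, IsAlgebraic (Algebra.adjoin ℚ {w}) z →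
        (w = Real.exp 1 ∨ w = Real.pi) → False := by
      intro w hw hww
      have hr : Set.range (fun _ : Fin 1 => w) = {w} := Set.range_const
      refine h3 1 (fun _ => w) (fun _ => z) ?_ (fun _ => by rw [hr]; exact hw) (fun _ => hzF) ?_
      · rw [hr]
        rcases hww with rfl | rfl
        · left
          exact isAlgebraic_algebraMap
            (⟨Real.exp 1, Algebra.subset_adjoin rfl⟩ : Algebra.adjoin ℚ {Real.exp 1})
        · right
          exact isAlgebraic_algebraMap
            (⟨Real.pi, Algebra.subset_adjoin rfl⟩ : Algebra.adjoin ℚ {Real.pi})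
      · rw [algebraicIndependent_unique_type_iff]
        exact hz
    rcases hor with h | h
    · exact key _ h (Or.inl rfl)
    · exact key _ h (Or.inr rfl)

end Pool.Agent.Results.MP_363d4d_nt.OverLiouvilleFields
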