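import Pool.Agent.U364.PD.Two
import Pool.Agent.R473.JC.Final
import Pool.Agent.R356.Four

/-!
# Pushdown predictors for the digits of `π + e` and `π - e`, in two bases

Not both of the numbers `π + e` and `π - e` are rational, as their difference is `2 e`; the digits of a rational number
are predicted by a finite automaton with finitely many errors. We show that two deterministic pushdown machines (finite
automata with an unbounded stack, which may make any number of moves between two digits) cannot predict the digits of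
both numbers with few errors, even in two different bases `β` and `β'` and for two different numbers `N`, `N'` of
digits: if they make `E` and `E'` errors, then `min (N log β, N' log β') ≤ K ^ (E + E' + 1) (|s| + |s'| + 1)`, where `s`
and `s'` are the initial stacks. This is proved for all pairs of real numbers `u`, `v` such that `e`, `π` or the
logarithm of a rational number is algebraic over the ring generated by `u` and `v`; for example for `t + e` and `t - e`,
for every real `t`. Moreover at every large scale `N` at most one of the four numbers `π + e`, `π - e`, `π e`, `π / e` is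
predicted with at most `c log N` errors by one of finitely many given machines, in any bases.

The measure is the one of `DigitBlocks` (hand-in of helper455 for MP_a49cf6_nt, on finite automata), the machines are
analysed in `Pool.Agent.U364.PD`: during a stretch without errors the machine is an autonomous pushdown system, and it is
periodic after a number of digits which is at most linear in the height of its stack.
-/

set_option autoImplicit false

open Pool.Agent.U364.PD Finset

namespace Pool.Agent.Results.MP_363d4d_nt.PushdownTwoBases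

/-- the `i`-th digit of `x` after the point in base `b` -/
noncomputable def digit (b : ℕ) (x : ℝ) (i : ℕ) : ℤ := ⌊x * (b : ℝ) ^ i⌋ % (b : ℤ)

/-- the numbers `π + e`, `π - e`, `π e`, `π / e` -/
noncomputable def num : Fin 4 → ℝ :=
  ![Real.pi + Real.exp 1, Real.pi - Real.exp 1, Real.pi * Real.exp 1, Real.pi / Real.exp 1]

theorem alg_add_sub (x t : ℝ) :
    IsAlgebraic (Algebra.adjoin ℤ ({t + x, t - x} : Set ℝ)) x := by
  obtain ⟨R, hR⟩ : ∃ R : Subalgebra ℤ ℝ, R = Algebra.adjoin ℤ ({t + x, t - x} : Set ℝ) := ⟨_, rfl⟩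
  rw [← hR]
  have h1 : t + x ∈ R := by rw [hR]; exact Algebra.subset_adjoin (by simp)
  have h2 : t - x ∈ R := by rw [hR]; exact Algebra.subset_adjoin (by simp)
  have h3 : (t + x) - (t - x) ∈ R := R.sub_mem h1 h2
  have h4 : IsAlgebraic R ((2 : ℕ) • x) := by
    have h5 : (2 : ℕ) • x = algebraMap R ℝ ⟨(t + x) - (t - x), h3⟩ := by
      change (2 : ℕ) • x = (t + x) - (t - x)
      rw [two_nsmul]; ring
    rw [h5]
    exact isAlgebraic_algebraMap _
  have h5 : IsAlgebraic R (algebraMap R ℝ 2 * x) := by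
    have h6 : algebraMap R ℝ 2 * x = (2 : ℕ) • x := by
      rw [map_ofNat, nsmul_eq_mul]; norm_num
    rw [h6]; exact h4
  refine IsAlgebraic.of_mul (y := algebraMap R ℝ 2) ?_ (isAlgebraic_algebraMap _) h5
  rw [map_ofNat]
  exact mem_nonZeroDivisors_of_ne_zero (by norm_num)

/-- a finite family of machines -/
theorem family {ι : Type} [Finite ι] (β : ι → ℕ) (hβ : ∀ i, 2 ≤ β i) (Q Γ : ι → Type)
    [∀ i, Finite (Q i)] [∀ i, Finite (Γ i)] (M : ∀ i, Machine (Q i) (Γ i)) (q : ∀ i, Q i)
    (s : ∀ i, List (Γ i)) :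
    ∃ (c : ℝ) (N₀ : ℕ), 0 < c ∧ ∀ N : ℕ, N₀ ≤ N → ∀ a b : Fin 4,
      (∃ i, (errors (M i) (digit (β i) (num a)) (q i) (s i) N : ℝ) ≤ c * Real.log N) →
      (∃ i, (errors (M i) (digit (β i) (num b)) (q i) (s i) N : ℝ) ≤ c * Real.log N) → a = b := by
  classical
  have := Fintype.ofFinite ι
  have h1 : ∀ (z : Fin 4 × Fin 4 × ι × ι), ∃ K : ℝ, 1 ≤ K ∧ (z.1 ≠ z.2.1 → ∀ N N' : ℕ,
      min (N * Real.log (β z.2.2.1)) (N' * Real.log (β z.2.2.2)) ≤
        K ^ (errors (M z.2.2.1) (digit (β z.2.2.1) (num z.1)) (q z.2.2.1) (s z.2.2.1) N +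
          errors (M z.2.2.2) (digit (β z.2.2.2) (num z.2.1)) (q z.2.2.2) (s z.2.2.2) N' + 1) *
          ((s z.2.2.1).length + (s z.2.2.2).length + 1)) := by
    intro z
    by_cases hz : z.1 = z.2.1
    · exact ⟨1, le_rfl, fun h => absurd hz h⟩
    · obtain ⟨K, hK, h⟩ := two (num z.1) (num z.2.1) (Pool.Agent.R356.four z.1 z.2.1 hz).1
        (β z.2.2.1) (β z.2.2.2) (hβ _) (hβ _) (M z.2.2.1) (M z.2.2.2)
      exact ⟨K, hK, fun _ N N' => h _ _ _ _ N N'⟩
  choose K hK hmain using h1
  obtain ⟨L, hL⟩ : ∃ L : ℝ, L = ∑ z, K z + 1 := ⟨_, rfl⟩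
  have hKL : ∀ z, K z ≤ L := by
    intro z
    have h2 := Finset.single_le_sum (f := K) (fun z _ => zero_le_one.trans (hK z)) (mem_univ z)
    rw [hL]
    linarith
  have hL1 : 1 ≤ L := by
    have h2 : 0 ≤ ∑ z, K z := Finset.sum_nonneg fun z _ => zero_le_one.trans (hK z)
    rw [hL]; linarith
  have hlogL : 0 ≤ Real.log L := Real.log_nonneg hL1
  obtain ⟨S, hS⟩ : ∃ S : ℝ, S = ∑ i, ((s i).length : ℝ) := ⟨_, rfl⟩
  have hSi : ∀ i, ((s i).length : ℝ) ≤ S := by
    intro i
    rw [hS]
    exact Finset.single_le_sum (f := fun i => ((s i).length : ℝ)) (fun _ _ => Nat.cast_nonneg _)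
      (mem_univ i)
  have hS0 : 0 ≤ S := by rw [hS]; exact Finset.sum_nonneg fun _ _ => Nat.cast_nonneg _
  obtain ⟨c, hc⟩ : ∃ c : ℝ, c = 1 / (4 * (Real.log L + 1)) := ⟨_, rfl⟩
  have hc0 : 0 < c := by rw [hc]; positivity
  have hcL : 2 * c * Real.log L ≤ 1 / 2 := by
    rw [hc]
    rw [show 2 * (1 / (4 * (Real.log L + 1))) * Real.log L =
      (Real.log L / (Real.log L + 1)) * (1 / 2) by field_simp; ring]
    have : Real.log L / (Real.log L + 1) ≤ 1 := by
      rw [div_le_one (by linarith)]
      linarith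
    linarith
  obtain ⟨B, hB⟩ : ∃ B : ℝ, B = L * (2 * S + 1) / Real.log 2 := ⟨_, rfl⟩
  have hlog2 : 0 < Real.log 2 := Real.log_pos (by norm_num)
  have hB0 : 0 ≤ B := by rw [hB]; positivity
  refine ⟨c, ⌊B ^ 2⌋₊ + 2, hc0, fun N hN a b ⟨i, hi⟩ ⟨j, hj⟩ => ?_⟩
  by_contra hab
  have h2 := hmain (a, b, i, j) hab N N
  simp only at h2
  have hN1 : 1 ≤ N := by omega
  have hNR : (1 : ℝ) ≤ N := by exact_mod_cast hN1
  have hN0 : (0 : ℝ) < N := by linarith
  have hNB : B ^ 2 < N := by
    have h3 := Nat.lt_floor_add_one (B ^ 2)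
    have h4 : ((⌊B ^ 2⌋₊ : ℕ) : ℝ) + 1 ≤ N := by exact_mod_cast (by omega : ⌊B ^ 2⌋₊ + 1 ≤ N)
    linarith
  have hmin : (N : ℝ) * Real.log 2 ≤ min (N * Real.log (β i)) (N * Real.log (β j)) := by
    refine le_min ?_ ?_
    · exact mul_le_mul_of_nonneg_left (Real.log_le_log (by norm_num) (by exact_mod_cast hβ i)) hN0.le
    · exact mul_le_mul_of_nonneg_left (Real.log_le_log (by norm_num) (by exact_mod_cast hβ j)) hN0.le
  obtain ⟨E, hE⟩ : ∃ E : ℕ, E = errors (M i) (digit (β i) (num a)) (q i) (s i) N +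
    errors (M j) (digit (β j) (num b)) (q j) (s j) N := ⟨_, rfl⟩
  rw [← hE] at h2
  have hEc : (E : ℝ) ≤ 2 * c * Real.log N := by
    rw [hE]
    push_cast
    linarith
  have hpow : K (a, b, i, j) ^ (E + 1) ≤ L * Real.sqrt N := by
    have h3 : K (a, b, i, j) ^ (E + 1) ≤ L ^ (E + 1) :=
      pow_le_pow_left₀ (zero_le_one.trans (hK _)) (hKL _) _
    refine h3.trans ?_
    rw [pow_succ, mul_comm]
    refine mul_le_mul_of_nonneg_left ?_ (by linarith)
    have h4 : L ^ E = Real.exp (E * Real.log L) := by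
      rw [← Real.log_pow, Real.exp_log (by positivity)]
    have h5 : Real.sqrt N = Real.exp (1 / 2 * Real.log N) := by
      rw [Real.sqrt_eq_rpow, Real.rpow_def_of_pos hN0, mul_comm]
    rw [h4, h5]
    apply Real.exp_le_exp.2
    have hlogN : 0 ≤ Real.log N := Real.log_nonneg hNR
    calc (E : ℝ) * Real.log L ≤ (2 * c * Real.log N) * Real.log L :=
          mul_le_mul_of_nonneg_right hEc hlogL
      _ = (2 * c * Real.log L) * Real.log N := by ring
      _ ≤ 1 / 2 * Real.log N := mul_le_mul_of_nonneg_right hcL hlogN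
  have h3 : (N : ℝ) * Real.log 2 ≤ (L * Real.sqrt N) * (2 * S + 1) := by
    refine (hmin.trans h2).trans ?_
    refine mul_le_mul hpow ?_ (by positivity) (by positivity)
    linarith [hSi i, hSi j]
  have hsq : Real.sqrt N * Real.sqrt N = N := Real.mul_self_sqrt hN0.le
  have hsq0 : 0 < Real.sqrt N := Real.sqrt_pos.2 hN0
  have h4 : Real.sqrt N ≤ B := by
    rw [hB, le_div_iff₀ hlog2]
    have h5 : (Real.sqrt N * Real.log 2) * Real.sqrt N ≤ (L * (2 * S + 1)) * Real.sqrt N := by
      calc (Real.sqrt N * Real.log 2) * Real.sqrt N = N * Real.log 2 := by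
            rw [mul_right_comm, hsq]
        _ ≤ _ := h3
        _ = _ := by ring
    exact le_of_mul_le_mul_right h5 hsq0
  have h5 : (N : ℝ) ≤ B ^ 2 := by
    rw [← hsq, sq]
    exact mul_le_mul h4 h4 hsq0.le hB0
  linarith

/-- **Pushdown predictors in two bases.** (1) Let `x` be `e`, `π` or the logarithm of a positive rational number other
than `1`, and let `u`, `v` be real numbers such that `x` is algebraic over `ℤ[u, v]`. For all bases `β, β' ≥ 2` and all
deterministic pushdown machines `M`, `M'` with finitely many states and stack symbols there is `K` such that for all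
initial states and stacks and all `N`, `N'`: if `M` makes `E` errors on the first `N` digits of `u` in base `β` and `M'`
makes `E'` errors on the first `N'` digits of `v` in base `β'`, then
`min (N log β, N' log β') ≤ K ^ (E + E' + 1) (|s| + |s'| + 1)`. (2) The numbers `u = t + x`, `v = t - x` satisfy the
condition for all real `t`, `x` (for instance `t = π`, `x = e`). (3) For every finite family of machines (with bases and
initial states and stacks) there are `c > 0` and `N₀` such that for every `N ≥ N₀` at most one of the numbers `π + e`,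
`π - e`, `π e`, `π / e` is such that a machine of the family makes at most `c log N` errors on its first `N` digits. -/
theorem result :
    (∀ x : ℝ, (x = Real.exp 1 ∨ x = Real.pi ∨ ∃ q : ℚ, 0 < q ∧ q ≠ 1 ∧ x = Real.log q) →
      ∀ u v : ℝ, IsAlgebraic (Algebra.adjoin ℤ ({u, v} : Set ℝ)) x →
      ∀ β β' : ℕ, 2 ≤ β → 2 ≤ β' → ∀ (Q Γ Q' Γ' : Type) [Finite Q] [Finite Γ] [Finite Q']
        [Finite Γ'] (M : Machine Q Γ) (M' : Machine Q' Γ'), ∃ K : ℝ,
      ∀ (q : Q) (s : List Γ) (q' : Q') (s' : List Γ') (N N' : ℕ),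
        min (N * Real.log β) (N' * Real.log β') ≤
          K ^ (errors M (digit β u) q s N + errors M' (digit β' v) q' s' N' + 1) *
            (s.length + s'.length + 1)) ∧
    (∀ t x : ℝ, IsAlgebraic (Algebra.adjoin ℤ ({t + x, t - x} : Set ℝ)) x) ∧
    (∀ (ι : Type) [Finite ι] (β : ι → ℕ), (∀ i, 2 ≤ β i) → ∀ (Q Γ : ι → Type)
      [∀ i, Finite (Q i)] [∀ i, Finite (Γ i)] (M : ∀ i, Machine (Q i) (Γ i)) (q : ∀ i, Q i)
      (s : ∀ i, List (Γ i)), ∃ (c : ℝ) (N₀ : ℕ), 0 < c ∧ ∀ N : ℕ, N₀ ≤ N → ∀ a b : Fin 4,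
        (∃ i, (errors (M i) (digit (β i) (num a)) (q i) (s i) N : ℝ) ≤ c * Real.log N) →
        (∃ i, (errors (M i) (digit (β i) (num b)) (q i) (s i) N : ℝ) ≤ c * Real.log N) → a = b) := by
  refine ⟨fun x hx u v h β β' hβ hβ' Q Γ Q' Γ' _ _ _ _ M M' => ?_, fun t x => alg_add_sub x t,
    fun ι _ β hβ Q Γ _ _ M q s => family β hβ Q Γ M q s⟩
  obtain ⟨K, -, hK⟩ := two u v
    (Pool.Agent.R473.JC.jointR_of_alg x (Pool.Agent.R473.JC.measT_three x hx) u v h) β β' hβ hβ' M M'
  exact ⟨K, fun q s q' s' N N' => hK q s q' s' N N'⟩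

end Pool.Agent.Results.MP_363d4d_nt.PushdownTwoBases
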