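import Mathlib
import Pool.Agent.H340R2.LW
import Pool.Agent.W254.HP.Prod
import Pool.Agent.U945.RD.Rank

/-!
# Sums of linear forms in logarithms and exponentials of algebraic numbers

Let `LogForms` be the space of the numbers `Λ = b_0 + b_1 log a_1 + ⋯ + b_m log a_m` with algebraic `a_i`,
`b_i`, for instance `Λ = ± π`. For an algebraic number `s` and a complex number `v ≠ 0` we say that `s` is
exceptional (for `v`) if `Λ + β v e ^ s` is algebraic for SOME `Λ` in `LogForms` and some algebraic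
`β ≠ 0`. The numbers `π + e` and `π - e` of the problem belong to `s = 1` and `v = 1`. No exceptional
`s ≠ 0` is expected for `v = 1`.

(1) Let `S` be a finite set of algebraic numbers. The sums `f = ∑ β_s v e ^ s` (`s` in `S`, `β_s` algebraic)
such that `Λ + f` is algebraic for some `Λ` in `LogForms` form a space of dimension `m` over the algebraic
numbers, with `|T| m ≤ |S + T| + |T| (|T| - 1)` for all finite sets `T` of algebraic numbers. In
particular the number of exceptional elements of `S` satisfies this inequality.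

(2) If `S = {x, x + δ, …, x + (n - 1) δ}` then `m ≤ 2 [√n] + 1`. So for the `n`-dimensional space of the
polynomials `P(e)` with algebraic coefficients of degree `< n` all numbers `Λ + P(e)` are transcendental,
for all `Λ` in `LogForms`, outside a subspace of dimension `≤ 2 [√n] + 1`; and for all but
`2 [√N] + 1` of the integers `1 ≤ n ≤ N` all numbers `Λ + β e ^ n` (`β ≠ 0`) are transcendental, for instance
all numbers `α π + γ log 2 + β e ^ n` with algebraic `α`, `γ`, `β ≠ 0`.

(3) For every algebraic `δ ≠ 0` at most two algebraic numbers `s` are such that `s` and `s + δ` are both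
exceptional.

Ingredients: the hyperplane case of the linear subgroup theorem of Waldschmidt and Roy, and the theorem of
Lindemann and Weierstrass, both from the starting library.
-/

set_option autoImplicit false

namespace Pool.Agent.Results.MP_363d4d_nt.SumsWithExponentials

open Module
open scoped Pointwise
open Pool.Agent.H301R2.SSE (QB mem_QB Lt Lt_alg Lt_mul Lt_log)

/-- The linear combinations, with algebraic coefficients, of `1` and of logarithms of algebraic
numbers. -/
noncomputable def LogForms : Submodule (algebraicClosure ℚ ℂ) ℂ :=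
  Submodule.span (algebraicClosure ℚ ℂ) ({1} ∪ {z : ℂ | IsAlgebraic ℚ (Complex.exp z)})

/-- The sums `∑ β_s v e ^ s` over `s` in `S`, with algebraic `β_s`. -/
noncomputable def ExpSums (v : ℂ) (S : Finset ℂ) : Submodule (algebraicClosure ℚ ℂ) ℂ :=
  Submodule.span (algebraicClosure ℚ ℂ) {z | ∃ s ∈ S, z = v * Complex.exp s}

/-- `Λ + β v e ^ s` is transcendental for all `Λ` in `LogForms` and all algebraic `β ≠ 0`. -/
def AllTranscendental (v s : ℂ) : Prop :=
  ∀ Λ ∈ LogForms, ∀ β : ℂ, IsAlgebraic ℚ β → β ≠ 0 →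
    Transcendental ℚ (Λ + β * (v * Complex.exp s))

theorem li {v : ℂ} (hv : v ≠ 0) {S : Finset ℂ} (hS : ∀ s ∈ S, IsAlgebraic ℚ s) :
    LinearIndependent QB (fun s : S => v * Complex.exp (s : ℂ)) := by
  rw [Fintype.linearIndependent_iff]
  intro g hg i
  have h1 : ∑ s : S, (g s : ℂ) * Complex.exp (s : ℂ) = 0 := by
    have h2 : v * ∑ s : S, (g s : ℂ) * Complex.exp (s : ℂ) = 0 := by
      rw [← hg, Finset.mul_sum]
      refine Finset.sum_congr rfl fun s _ => ?_
      rw [Algebra.smul_def]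
      change v * ((g s : ℂ) * _) = (g s : ℂ) * _
      ring
    exact (mul_eq_zero.1 h2).resolve_left hv
  have h3 := Pool.Agent.H340R2.LW.lindemann_weierstrass (Finset.univ : Finset S)
    (fun s => (s : ℂ)) (fun s => (g s : ℂ)) (fun s _ => hS s s.2) (fun s _ => mem_QB.1 (g s).2)
    (fun a _ b _ h => Subtype.ext h) h1 i (Finset.mem_univ i)
  exact Subtype.ext h3

theorem expSums_eq (v : ℂ) (S : Finset ℂ) :
    ExpSums v S = Submodule.span QB (Set.range (fun s : S => v * Complex.exp (s : ℂ))) := by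
  unfold ExpSums
  congr 1
  ext z
  constructor
  · rintro ⟨s, hs, rfl⟩
    exact ⟨⟨s, hs⟩, rfl⟩
  · rintro ⟨s, rfl⟩
    exact ⟨s, s.2, rfl⟩

instance expSums_fin (v : ℂ) (S : Finset ℂ) : FiniteDimensional QB (ExpSums v S) := by
  rw [expSums_eq]
  exact FiniteDimensional.span_of_finite QB (Set.finite_range _)

theorem expSums_rank {v : ℂ} (hv : v ≠ 0) {S : Finset ℂ} (hS : ∀ s ∈ S, IsAlgebraic ℚ s) :
    finrank QB (ExpSums v S) = S.card := by
  rw [expSums_eq, finrank_span_eq_card (li hv hS), Fintype.card_coe]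

theorem add_alg {S T : Finset ℂ} (hS : ∀ s ∈ S, IsAlgebraic ℚ s) (hT : ∀ s ∈ T, IsAlgebraic ℚ s) :
    ∀ s ∈ S + T, IsAlgebraic ℚ s := by
  intro s hs
  obtain ⟨a, ha, b, hb, rfl⟩ := Finset.mem_add.1 hs
  exact (hS a ha).add (hT b hb)

theorem main {v : ℂ} (hv : v ≠ 0) {S T : Finset ℂ} (hS : ∀ s ∈ S, IsAlgebraic ℚ s)
    (hT : ∀ s ∈ T, IsAlgebraic ℚ s) :
    T.card * finrank QB (ExpSums v S ⊓ LogForms : Submodule QB ℂ) ≤
      (S + T).card + T.card * (T.card - 1) := by
  have hfd : FiniteDimensional QB (ExpSums v S ⊓ LogForms : Submodule QB ℂ) :=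
    Submodule.finiteDimensional_inf_left _ _
  have h := Pool.Agent.W254.HP.product_le (ExpSums 1 T) (ExpSums v S ⊓ LogForms)
    (ExpSums v (S + T)) inf_le_right (fun x hx w hw => by
      have h1 : x * w ∈ ExpSums 1 T * ExpSums v S := Submodule.mul_mem_mul hx hw.1
      unfold ExpSums at h1
      rw [Submodule.span_mul_span] at h1
      refine Submodule.span_mono ?_ h1
      rintro _ ⟨_, ⟨t, ht, rfl⟩, _, ⟨s, hs, rfl⟩, rfl⟩
      refine ⟨s + t, Finset.add_mem_add hs ht, ?_⟩
      dsimp only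
      rw [Complex.exp_add]
      ring)
  rwa [expSums_rank one_ne_zero hT, expSums_rank hv (add_alg hS hT)] at h

open Classical in
theorem number {v : ℂ} (hv : v ≠ 0) {S : Finset ℂ} (hS : ∀ s ∈ S, IsAlgebraic ℚ s) :
    (S.filter fun s => v * Complex.exp s ∈ LogForms).card ≤
      finrank QB (ExpSums v S ⊓ LogForms : Submodule QB ℂ) := by
  have hfd : FiniteDimensional QB (ExpSums v S ⊓ LogForms : Submodule QB ℂ) :=
    Submodule.finiteDimensional_inf_left _ _
  rw [← expSums_rank hv (S := S.filter fun s => v * Complex.exp s ∈ LogForms)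
    (fun s hs => hS s (Finset.mem_filter.1 hs).1)]
  refine Submodule.finrank_mono ?_
  unfold ExpSums
  rw [Submodule.span_le]
  rintro _ ⟨s, hs, rfl⟩
  exact ⟨Submodule.subset_span ⟨s, (Finset.mem_filter.1 hs).1, rfl⟩, (Finset.mem_filter.1 hs).2⟩

/-- the progression -/
noncomputable def prog (x δ : ℂ) (n : ℕ) : Finset ℂ :=
  (Finset.range n).image fun j : ℕ => x + (j : ℂ) * δ

theorem prog_alg {x δ : ℂ} (hx : IsAlgebraic ℚ x) (hδ : IsAlgebraic ℚ δ) (n : ℕ) :
    ∀ s ∈ prog x δ n, IsAlgebraic ℚ s := by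
  intro s hs
  obtain ⟨j, -, rfl⟩ := Finset.mem_image.1 hs
  exact hx.add ((isAlgebraic_natCast j).mul hδ)

theorem prog_card {x δ : ℂ} (hδ : δ ≠ 0) (n : ℕ) : (prog x δ n).card = n := by
  unfold prog
  rw [Finset.card_image_of_injective, Finset.card_range]
  intro a b h
  have h1 : ((a : ℂ)) * δ = (b : ℂ) * δ := add_left_cancel h
  exact_mod_cast mul_right_cancel₀ hδ h1

theorem prog_sum {x δ : ℂ} {n k : ℕ} :
    (prog x δ n + prog 0 δ k).card ≤ n + k - 1 := by
  have h1 : prog x δ n + prog 0 δ k ⊆ prog x δ (n + k - 1) := by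
    intro s hs
    obtain ⟨a, ha, b, hb, rfl⟩ := Finset.mem_add.1 hs
    obtain ⟨i, hi, rfl⟩ := Finset.mem_image.1 ha
    obtain ⟨j, hj, rfl⟩ := Finset.mem_image.1 hb
    rw [Finset.mem_range] at hi hj
    refine Finset.mem_image.2 ⟨i + j, Finset.mem_range.2 (by omega), ?_⟩
    push_cast
    ring
  refine (Finset.card_le_card h1).trans ?_
  unfold prog
  exact Finset.card_image_le.trans (by rw [Finset.card_range])

theorem prog_rank {v : ℂ} (hv : v ≠ 0) {x δ : ℂ} (hx : IsAlgebraic ℚ x) (hδ : IsAlgebraic ℚ δ)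
    (hδ0 : δ ≠ 0) (n : ℕ) :
    finrank QB (ExpSums v (prog x δ n) ⊓ LogForms : Submodule QB ℂ) ≤ 2 * Nat.sqrt n + 1 := by
  rcases Nat.eq_zero_or_pos n with rfl | hn
  · have hfd : FiniteDimensional QB (ExpSums v (prog x δ 0)) := inferInstance
    have h1 : finrank QB (ExpSums v (prog x δ 0) ⊓ LogForms : Submodule QB ℂ) ≤
        finrank QB (ExpSums v (prog x δ 0)) := Submodule.finrank_mono inf_le_left
    rw [expSums_rank hv (prog_alg hx hδ 0), prog_card hδ0] at h1
    omega
  set r := Nat.sqrt n with hr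
  have hr1 : 1 ≤ r := Nat.sqrt_pos.2 hn
  have hr2 : n < (r + 1) * (r + 1) := Nat.lt_succ_sqrt n
  have h := main hv (prog_alg hx hδ n) (prog_alg isAlgebraic_zero hδ r)
  rw [prog_card hδ0] at h
  have h2 := prog_sum (x := x) (δ := δ) (n := n) (k := r)
  set m := finrank QB (ExpSums v (prog x δ n) ⊓ LogForms : Submodule QB ℂ) with hm
  by_contra hcon
  push Not at hcon
  have h3 : r * (2 * r + 2) ≤ r * m := Nat.mul_le_mul_left r (by omega)
  have h4 : r * (r - 1) + r = r * r := by
    obtain ⟨q, hq⟩ : ∃ q, r = q + 1 := ⟨r - 1, by omega⟩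
    rw [hq, Nat.add_sub_cancel]
    ring
  have h5 : (prog x δ n + prog 0 δ r).card + 1 ≤ n + r := by omega
  have h6 : (r + 1) * (r + 1) = r * r + 2 * r + 1 := by ring
  have h7 : r * (2 * r + 2) = 2 * (r * r) + 2 * r := by ring
  have h8 : r * m + 1 + r ≤ n + r + r * r := by linarith
  linarith

theorem all_of {v s : ℂ} (h : v * Complex.exp s ∉ LogForms) : AllTranscendental v s := by
  intro Λ hΛ β hβ hβ0 hcon
  apply h
  have e1 : v * Complex.exp s = β⁻¹ * ((Λ + β * (v * Complex.exp s)) - Λ) := by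
    field_simp
    ring
  rw [e1]
  exact Lt_mul hβ.inv (sub_mem (Lt_alg hcon) hΛ)

theorem two {v : ℂ} (hv : v ≠ 0) {δ : ℂ} (hδ : IsAlgebraic ℚ δ) (hδ0 : δ ≠ 0) (E : Finset ℂ)
    (hE : ∀ s ∈ E, IsAlgebraic ℚ s ∧ v * Complex.exp s ∈ LogForms ∧
      v * Complex.exp (s + δ) ∈ LogForms) : E.card ≤ 2 := by
  classical
  have hli := (li hv (S := E) fun s hs => (hE s hs).1).comp E.equivFin.symm E.equivFin.symm.injective
  have hlam : LinearIndependent QB (Fin.cons 1 (fun _ : Fin 1 => Complex.exp δ) :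
      Fin (1 + 1) → ℂ) := by
    have h1 := li one_ne_zero (S := {0, δ}) (by
      intro s hs
      rw [Finset.mem_insert, Finset.mem_singleton] at hs
      rcases hs with rfl | rfl
      · exact isAlgebraic_zero
      · exact hδ)
    have h2 := h1.comp (![⟨0, by simp⟩, ⟨δ, by simp⟩] : Fin 2 → ({0, δ} : Finset ℂ)) (by
      intro a b hab
      fin_cases a <;> fin_cases b <;> simp_all)
    have e1 : (Fin.cons 1 (fun _ : Fin 1 => Complex.exp δ) : Fin (1 + 1) → ℂ) =
        (fun s : ({0, δ} : Finset ℂ) => (1 : ℂ) * Complex.exp (s : ℂ)) ∘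
          (![⟨0, by simp⟩, ⟨δ, by simp⟩] : Fin 2 → ({0, δ} : Finset ℂ)) := by
      funext i
      fin_cases i
      · simp
      · simp
    rw [e1]
    exact h2
  have h1 := Pool.Agent.U945.RD.abs_rank_vec (n := E.card) (d := 1) Pool.Agent.U945.RD.hypK_Lt
    (⊥ : Submodule QB ℂ) (w := fun i _ => v * Complex.exp (E.equivFin.symm i : ℂ))
    (by
      rw [Fintype.linearIndependent_iff] at hli ⊢
      intro g hg
      apply hli g
      have := congrFun hg 0
      rw [Finset.sum_apply] at this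
      exact this) (fun j _ => (hE _ (E.equivFin.symm j).2).2.1)
    (lam := fun _ => Complex.exp δ) hlam
    (fun j => by
      rw [Fin.sum_univ_one, sup_bot_eq]
      have h2 := (hE _ (E.equivFin.symm j).2).2.2
      rw [Complex.exp_add] at h2
      have e1 : Complex.exp δ * (v * Complex.exp (E.equivFin.symm j : ℂ)) =
          v * (Complex.exp (E.equivFin.symm j : ℂ) * Complex.exp δ) := by ring
      rw [e1]
      exact h2)
  rw [finrank_bot] at h1
  omega

open Classical in
/-- **Sums of linear forms in logarithms and exponentials of algebraic numbers.** -/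
theorem result (v : ℂ) (hv : v ≠ 0) :
    -- (1)
    (∀ S T : Finset ℂ, (∀ s ∈ S, IsAlgebraic ℚ s) → (∀ t ∈ T, IsAlgebraic ℚ t) →
      Module.finrank (algebraicClosure ℚ ℂ) (ExpSums v S) = S.card ∧
      (S.filter fun s => ¬ AllTranscendental v s).card ≤
        Module.finrank (algebraicClosure ℚ ℂ)
          (ExpSums v S ⊓ LogForms : Submodule (algebraicClosure ℚ ℂ) ℂ) ∧
      T.card * Module.finrank (algebraicClosure ℚ ℂ)
          (ExpSums v S ⊓ LogForms : Submodule (algebraicClosure ℚ ℂ) ℂ) ≤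
        (S + T).card + T.card * (T.card - 1)) ∧
    -- (2)
    (∀ (x δ : ℂ) (n : ℕ), IsAlgebraic ℚ x → IsAlgebraic ℚ δ → δ ≠ 0 →
      Module.finrank (algebraicClosure ℚ ℂ) (ExpSums v ((Finset.range n).image
        fun j : ℕ => x + (j : ℂ) * δ) ⊓ LogForms : Submodule (algebraicClosure ℚ ℂ) ℂ) ≤
          2 * Nat.sqrt n + 1 ∧
      ((Finset.range n).filter fun j : ℕ => ¬ AllTranscendental v (x + (j : ℂ) * δ)).card ≤
        2 * Nat.sqrt n + 1) ∧
    -- (3)
    ∀ δ : ℂ, IsAlgebraic ℚ δ → δ ≠ 0 → {s : ℂ | IsAlgebraic ℚ s ∧ ¬ AllTranscendental v s ∧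
      ¬ AllTranscendental v (s + δ)}.encard ≤ 2 := by
  have not_all : ∀ s, ¬ AllTranscendental v s → v * Complex.exp s ∈ LogForms := fun s h =>
    by_contra fun hcon => h (all_of hcon)
  refine ⟨fun S T hS hT => ⟨expSums_rank hv hS, ?_, main hv hS hT⟩, fun x δ n hx hδ hδ0 =>
    ⟨prog_rank hv hx hδ hδ0 n, ?_⟩, fun δ hδ hδ0 => ?_⟩
  · refine (Finset.card_le_card ?_).trans (number hv hS)
    intro s hs
    rw [Finset.mem_filter] at hs ⊢
    exact ⟨hs.1, not_all s hs.2⟩
  · refine le_trans ?_ ((number hv (prog_alg hx hδ n)).trans (prog_rank hv hx hδ hδ0 n))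
    refine Finset.card_le_card_of_injOn (fun j : ℕ => x + (j : ℂ) * δ) (fun j hj => ?_) ?_
    · rw [Finset.mem_coe, Finset.mem_filter] at hj ⊢
      exact ⟨Finset.mem_image.2 ⟨j, hj.1, rfl⟩, not_all _ hj.2⟩
    · intro a _ b _ h
      have h1 : ((a : ℂ)) * δ = (b : ℂ) * δ := add_left_cancel h
      exact_mod_cast mul_right_cancel₀ hδ0 h1
  · by_contra hcon
    push Not at hcon
    obtain ⟨t, ht, hc⟩ := Set.exists_subset_encard_eq (Order.add_one_le_of_lt hcon)
    have hfin : t.Finite := Set.finite_of_encard_eq_coe (k := 2 + 1) (by rw [hc]; push_cast; rfl)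
    have h1 := two hv hδ hδ0 hfin.toFinset (fun s hs => by
      obtain ⟨h1, h2, h3⟩ := ht (hfin.mem_toFinset.1 hs)
      exact ⟨h1, not_all _ h2, not_all _ h3⟩)
    have h2 : (hfin.toFinset.card : ℕ∞) = 2 + 1 := by
      rw [← Set.encard_coe_eq_coe_finsetCard, hfin.coe_toFinset, hc]
    have h3 : hfin.toFinset.card = 2 + 1 := by exact_mod_cast h2
    omega

end Pool.Agent.Results.MP_363d4d_nt.SumsWithExponentials
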